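import Pool.Agent.R177.RF.CubF
/-!
# Power saving in all short intervals for random cubic completely multiplicative functions

The model of cubic characters: the completely multiplicative functions `f` on `{1, ..., 2Q}` whose values are cube
roots of unity, i.e. `f(p) = exp(2πi ξ_p / 3)` with arbitrary `ξ_p ∈ ℤ/3` for the primes `p ≤ 2Q`.  For every `A` and
`ε > 0` all but a proportion `O(Q^(-A))` of them satisfy `|∑_{M < a ≤ M + N} f(a)| ≤ N^(1/2) Q^ε` for all
`0 ≤ M ≤ Q` and `1 ≤ N ≤ Q`; in particular the bound of `C_n`, with `δ = 1/2`, simultaneously for all `n`.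

The proof: a sum of values of `f` at integers up to `2Q` is a polynomial of low degree on `(ℤ/3)^r`, so
hypercontractivity (proved here) bounds all its moments by its second moment, and the second moment counts the
pairs of integers of the interval whose quotient is the cube of a rational number; there are `O(N)` of them.
-/
open Finset

namespace Pool.Agent.Results.MP_081200_nt.RandomCubicFunctions

/-- the completely multiplicative function with value `exp(2πi ξ_p / 3)` at the primes `p < r` -/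
noncomputable def cubicFunction {r : ℕ} (ξ : Fin r → ZMod 3) (m : ℕ) : ℂ :=
  ∏ i : Fin r, (ZMod.stdAddChar (ξ i) : ℂ) ^ (m.factorization (i : ℕ))

/-- the sum of `f` over `M < a ≤ M + N` -/
noncomputable def intervalSum (f : ℕ → ℂ) (M N : ℕ) : ℂ := ∑ a ∈ Finset.Ioc M (M + N), f a

lemma char_sum {ι : Type} (s : Finset ι) (x : ι → ZMod 3) :
    (ZMod.stdAddChar (∑ i ∈ s, x i) : ℂ) = ∏ i ∈ s, (ZMod.stdAddChar (x i) : ℂ) := by
  classical
  induction s using Finset.induction_on with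
  | empty => rw [sum_empty, prod_empty, AddChar.map_zero_eq_one]
  | insert a s ha ih => rw [sum_insert ha, prod_insert ha, AddChar.map_add_eq_mul, ih]

lemma cubic_eq {r : ℕ} (ξ : Fin r → ZMod 3) (m : ℕ) : cubicFunction ξ m = Pool.Agent.R177.RF.ps (Pool.Agent.R177.RF.ex r m) ξ := by
  unfold cubicFunction Pool.Agent.R177.RF.ps Pool.Agent.R177.RF.ch Pool.Agent.R177.RF.ex
  rw [char_sum]
  refine prod_congr rfl fun i _ => ?_
  rw [← nsmul_eq_mul, AddChar.map_nsmul_eq_pow]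

open Classical in
/-- **All but a proportion `O(Q^(-A))` of the cubic completely multiplicative functions on `{1, ..., 2Q}` satisfy the
bound of `C_n` with `δ = 1/2`, for all `n` and all intervals.** -/
theorem result :
    (∀ (r : ℕ) (ξ : Fin r → ZMod 3), cubicFunction ξ 1 = 1 ∧ (∀ m : ℕ, cubicFunction ξ m ^ 3 = 1) ∧
      (∀ m n : ℕ, m ≠ 0 → n ≠ 0 → cubicFunction ξ (m * n) = cubicFunction ξ m * cubicFunction ξ n) ∧
      (∀ (p : ℕ) (hp : p < r), p.Prime → cubicFunction ξ p = ZMod.stdAddChar (ξ ⟨p, hp⟩))) ∧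
    (∀ A ε : ℝ, 0 < A → 0 < ε → ∃ C : ℝ, 0 < C ∧ ∀ Q : ℕ, 1 ≤ Q →
      ((Finset.univ.filter (fun ξ : Fin (2 * Q + 1) → ZMod 3 => ∃ M N : ℕ, M ≤ Q ∧ 1 ≤ N ∧ N ≤ Q ∧
        (N : ℝ) ^ (1 / 2 : ℝ) * (Q : ℝ) ^ ε < ‖intervalSum (cubicFunction ξ) M N‖)).card : ℝ) ≤
          C * (Q : ℝ) ^ (-A) * 3 ^ (2 * Q + 1) ∧
      ((Finset.univ.filter (fun ξ : Fin (2 * Q + 1) → ZMod 3 => ∃ n M N : ℕ, 1 ≤ n ∧ M ≤ Q ∧ 1 ≤ N ∧
        (N : ℝ) ≤ (Q : ℝ) ^ (1 / (n : ℝ)) ∧
        (Q : ℝ) ^ ((1 - 1 / 2) / (n : ℝ) + ε) < ‖intervalSum (cubicFunction ξ) M N‖)).card : ℝ) ≤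
          C * (Q : ℝ) ^ (-A) * 3 ^ (2 * Q + 1)) := by
  constructor
  · intro r ξ
    refine ⟨?_, ?_, ?_, ?_⟩
    · unfold cubicFunction
      simp
    · intro m
      rw [cubic_eq]
      unfold Pool.Agent.R177.RF.ps Pool.Agent.R177.RF.ch
      rw [← AddChar.map_nsmul_eq_pow]
      have : ∀ x : ZMod 3, 3 • x = 0 := by decide
      rw [this, AddChar.map_zero_eq_one]
    · intro m n hm hn
      unfold cubicFunction
      rw [← prod_mul_distrib]
      refine prod_congr rfl fun i _ => ?_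
      rw [Nat.factorization_mul hm hn, Finsupp.add_apply, pow_add]
    · intro p hp hpp
      unfold cubicFunction
      rw [prod_eq_single (⟨p, hp⟩ : Fin r)]
      · rw [hpp.factorization_self, pow_one]
      · intro i _ hi
        have : (p.factorization (i : ℕ)) = 0 := by
          rw [hpp.factorization, Finsupp.single_apply, if_neg]
          intro h
          exact hi (Fin.ext h.symm)
        rw [this, pow_zero]
      · intro h
        exact absurd (mem_univ _) h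
  · intro A ε hA hε
    obtain ⟨C, hC, hmain⟩ := Pool.Agent.R177.RF.cubic_final hA hε
    refine ⟨C, hC, fun Q hQ => ?_⟩
    have h1 := hmain Q hQ
    have hQ1 : (1 : ℝ) ≤ Q := by exact_mod_cast hQ
    have hQ0 : (0 : ℝ) < Q := by linarith
    have hsame : ∀ (ξ : Fin (2 * Q + 1) → ZMod 3) (M N : ℕ), intervalSum (cubicFunction ξ) M N =
        ∑ m ∈ Ioc M (M + N), Pool.Agent.R177.RF.ps (Pool.Agent.R177.RF.ex (2 * Q + 1) m) ξ := by
      intro ξ M N
      unfold intervalSum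
      exact sum_congr rfl fun m _ => cubic_eq ξ m
    have h2 : ((Finset.univ.filter (fun ξ : Fin (2 * Q + 1) → ZMod 3 => ∃ M N : ℕ, M ≤ Q ∧ 1 ≤ N ∧ N ≤ Q ∧
        (N : ℝ) ^ (1 / 2 : ℝ) * (Q : ℝ) ^ ε < ‖intervalSum (cubicFunction ξ) M N‖)).card : ℝ) ≤
          C * (Q : ℝ) ^ (-A) * 3 ^ (2 * Q + 1) := by
      simp_rw [hsame]
      exact h1
    refine ⟨h2, le_trans ?_ h2⟩
    have h3 : (Finset.univ.filter (fun ξ : Fin (2 * Q + 1) → ZMod 3 => ∃ n M N : ℕ, 1 ≤ n ∧ M ≤ Q ∧ 1 ≤ N ∧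
        (N : ℝ) ≤ (Q : ℝ) ^ (1 / (n : ℝ)) ∧
        (Q : ℝ) ^ ((1 - 1 / 2) / (n : ℝ) + ε) < ‖intervalSum (cubicFunction ξ) M N‖)) ⊆
        (Finset.univ.filter (fun ξ : Fin (2 * Q + 1) → ZMod 3 => ∃ M N : ℕ, M ≤ Q ∧ 1 ≤ N ∧ N ≤ Q ∧
        (N : ℝ) ^ (1 / 2 : ℝ) * (Q : ℝ) ^ ε < ‖intervalSum (cubicFunction ξ) M N‖)) := by
      intro ξ hξ
      rw [mem_filter] at hξ ⊢
      obtain ⟨_, n, M, N, hn, hM, hN, hNQ, hlt⟩ := hξ
      have hn1 : (1 : ℝ) ≤ n := by exact_mod_cast hn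
      refine ⟨mem_univ _, M, N, hM, hN, ?_, lt_of_le_of_lt ?_ hlt⟩
      · have h4 : (N : ℝ) ≤ Q := by
          refine hNQ.trans ?_
          calc (Q : ℝ) ^ (1 / (n : ℝ)) ≤ (Q : ℝ) ^ (1 : ℝ) := by
                apply Real.rpow_le_rpow_of_exponent_le hQ1
                rw [div_le_one (by linarith)]
                exact hn1
            _ = Q := Real.rpow_one _
        exact_mod_cast h4
      · rw [Real.rpow_add hQ0]
        apply mul_le_mul_of_nonneg_right _ (by positivity)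
        calc (N : ℝ) ^ (1 / 2 : ℝ) ≤ ((Q : ℝ) ^ (1 / (n : ℝ))) ^ (1 / 2 : ℝ) :=
              Real.rpow_le_rpow (Nat.cast_nonneg _) hNQ (by norm_num)
          _ = (Q : ℝ) ^ ((1 - 1 / 2) / (n : ℝ)) := by
            rw [← Real.rpow_mul hQ0.le]
            congr 1
            ring
    exact_mod_cast card_le_card h3

end Pool.Agent.Results.MP_081200_nt.RandomCubicFunctions
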