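import Pool.Agent.R524.Cubic.Sums

set_option autoImplicit false

/-!
# Short sums of cubic characters: reductions

The statements `C_n` for all moduli are reduced to primitive characters, whose moduli are products
of distinct primes `p ≡ 1 (mod 3)` and possibly of the factor `9`.
-/

namespace Pool.Agent.Results.MP_081200_nt.ReductionToCubefree

open Pool.Agent.R524.Cubic Finset

/-- `C_n` for the class `P` of characters: there is `δ > 0` such that for every `ε > 0` there is `c`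
with `|S_χ(M,N)| ≤ c Q ^ ((1 - δ) / n + ε)` for all real `Q ≥ 3`, all integers `1 ≤ N ≤ Q ^ (1/n)`,
all integers `M` and every non-principal cubic character `χ` of modulus `q ≤ Q` in the class. Here
`S χ M N` is the sum of `χ(a)` over the integers `a` with `M < a ≤ M + N`. -/
def C (P : (q : ℕ) → DirichletCharacter ℂ q → Prop) (n : ℕ) : Prop :=
  ∃ δ : ℝ, 0 < δ ∧ ∀ ε : ℝ, 0 < ε → ∃ c : ℝ, ∀ Q : ℝ, 3 ≤ Q → ∀ N : ℕ, 1 ≤ N →
    (N : ℝ) ≤ Q ^ (1 / (n : ℝ)) → ∀ M : ℤ, ∀ q : ℕ, 1 ≤ q → (q : ℝ) ≤ Q →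
      ∀ χ : DirichletCharacter ℂ q, χ ^ 3 = 1 → χ ≠ 1 → P q χ →
        ‖S χ M N‖ ≤ c * Q ^ ((1 - δ) / n + ε)

/-- all characters -/
def All (q : ℕ) (_ : DirichletCharacter ℂ q) : Prop := True

/-- characters of cubefree modulus -/
def Cubefree (q : ℕ) (_ : DirichletCharacter ℂ q) : Prop := ∀ p : ℕ, p.Prime → ¬ p ^ 3 ∣ q

/-- primitive characters whose modulus is a product of distinct primes `p ≡ 1 (mod 3)` and possibly
of the factor `9` -/
def Prim (q : ℕ) (χ : DirichletCharacter ℂ q) : Prop := Good q ∧ χ.IsPrimitive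

/-- The simplified form of `C_n`: a power saving for the intervals of length at most `q ^ (1/n)` and
the characters in `Prim`, without `Q` and `ε`. -/
def Simple (n : ℕ) : Prop :=
  ∃ δ c : ℝ, 0 < δ ∧ ∀ q : ℕ, 1 ≤ q → ∀ χ : DirichletCharacter ℂ q, χ ^ 3 = 1 → χ ≠ 1 →
    Prim q χ → ∀ N : ℕ, (N : ℝ) ≤ (q : ℝ) ^ (1 / (n : ℝ)) → ∀ M : ℤ,
      ‖S χ M N‖ ≤ c * (q : ℝ) ^ (1 / (n : ℝ) - δ)

/-- A power saving in the length for all intervals longer than an arbitrarily small power of the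
modulus, for the characters in `Prim`. -/
def LongIntervals : Prop :=
  ∀ η : ℝ, 0 < η → ∃ δ c : ℝ, 0 < δ ∧ ∀ q : ℕ, 1 ≤ q → ∀ χ : DirichletCharacter ℂ q, χ ^ 3 = 1 →
    χ ≠ 1 → Prim q χ → ∀ N : ℕ, (q : ℝ) ^ η ≤ N → ∀ M : ℤ, ‖S χ M N‖ ≤ c * (N : ℝ) ^ (1 - δ)

/-- normalised constants -/
lemma simple_norm {n : ℕ} (hn : 1 ≤ n) (h : Simple n) :
    ∃ δ c : ℝ, 0 < δ ∧ δ ≤ 1 / (n : ℝ) ∧ 0 ≤ c ∧ ∀ q : ℕ, 1 ≤ q →
      ∀ χ : DirichletCharacter ℂ q, χ ^ 3 = 1 → χ ≠ 1 → Prim q χ →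
      ∀ M : ℤ, ∀ N : ℕ, ‖S χ M N‖ ≤
        (2 * N / (q : ℝ) ^ (1 / (n : ℝ)) + 1) * (c * (q : ℝ) ^ (1 / (n : ℝ) - δ)) := by
  obtain ⟨δ, c, hδ, h⟩ := h
  have hn0 : (0 : ℝ) < n := by exact_mod_cast hn
  refine ⟨min δ (1 / n), max c 0, lt_min hδ (by positivity), min_le_right _ _, le_max_right _ _, ?_⟩
  intro q hq χ h3 h1 hP M N
  have hq1 : (1 : ℝ) ≤ q := by exact_mod_cast hq
  apply pieces_real χ ((q : ℝ) ^ (1 / (n : ℝ)))
  · exact Real.one_le_rpow hq1 (by positivity)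
  · positivity
  · intro M N hN
    refine (h q hq χ h3 h1 hP N hN M).trans ?_
    have e1 : (q : ℝ) ^ (1 / (n : ℝ) - δ) ≤ (q : ℝ) ^ (1 / (n : ℝ) - min δ (1 / n)) := by
      apply Real.rpow_le_rpow_of_exponent_le hq1
      have := min_le_left δ (1 / (n : ℝ))
      linarith
    have e2 : 0 ≤ (q : ℝ) ^ (1 / (n : ℝ) - δ) := by positivity
    calc c * (q : ℝ) ^ (1 / (n : ℝ) - δ) ≤ max c 0 * (q : ℝ) ^ (1 / (n : ℝ) - δ) :=
          mul_le_mul_of_nonneg_right (le_max_left _ _) e2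
      _ ≤ _ := mul_le_mul_of_nonneg_left e1 (le_max_right _ _)

/-- the bound with `Q`, for the characters in `Prim` -/
lemma prim_bound {n : ℕ} (hn : 1 ≤ n) (h : Simple n) :
    ∃ δ c : ℝ, 0 < δ ∧ 0 ≤ c ∧ ∀ Q : ℝ, 1 ≤ Q → ∀ N : ℕ,
      (N : ℝ) ≤ Q ^ (1 / (n : ℝ)) → ∀ M : ℤ, ∀ q : ℕ, 1 ≤ q → (q : ℝ) ≤ Q →
        ∀ χ : DirichletCharacter ℂ q, χ ^ 3 = 1 → χ ≠ 1 → Prim q χ →
          ‖S χ M N‖ ≤ c * Q ^ (1 / (n : ℝ) - δ) := by
  obtain ⟨δ, c, hδ, hδn, hc, h⟩ := simple_norm hn h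
  have hn0 : (0 : ℝ) < n := by exact_mod_cast hn
  have hn1 : (1 : ℝ) ≤ n := by exact_mod_cast hn
  have hin : 1 / (n : ℝ) ≤ 1 := by rw [div_le_one hn0]; exact hn1
  refine ⟨δ / (2 * n), 3 * c + 8, by positivity, by positivity, ?_⟩
  intro Q hQ N hN M q hq hqQ χ h3 h1 hP
  have hq1 : (1 : ℝ) ≤ q := by exact_mod_cast hq
  have hq0 : (0 : ℝ) < q := by linarith
  have hQ0 : (0 : ℝ) < Q := by linarith
  have hq3 := good_three_le hq hP.1 χ h1
  have hsm : δ / (2 * n) ≤ 1 / (2 * (n : ℝ)) := by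
    apply div_le_div_of_nonneg_right _ (by positivity); linarith
  have hP0 : 0 ≤ Q ^ (1 / (n : ℝ) - δ / (2 * n)) := by positivity
  rcases le_total (q : ℝ) (Q ^ (1 / (2 * (n : ℝ)))) with hcase | hcase
  · have e1 := pv' (by omega : 2 ≤ q) χ hP.2 M N
    have e2 : (q : ℝ) ^ (3 / 4 : ℝ) ≤ q := by
      conv_rhs => rw [← Real.rpow_one (q : ℝ)]
      exact Real.rpow_le_rpow_of_exponent_le hq1 (by norm_num)
    have e3 : Q ^ (1 / (2 * (n : ℝ))) ≤ Q ^ (1 / (n : ℝ) - δ / (2 * n)) := by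
      apply Real.rpow_le_rpow_of_exponent_le hQ
      have : 1 / (n : ℝ) = 1 / (2 * n) + 1 / (2 * n) := by field_simp; ring
      linarith
    have e4 : 0 ≤ 3 * c * Q ^ (1 / (n : ℝ) - δ / (2 * n)) := by positivity
    linarith
  · have e0 := h q hq χ h3 h1 hP M N
    refine e0.trans ?_
    have hN0 : (0 : ℝ) ≤ N := Nat.cast_nonneg N
    have e1 : 2 * N / (q : ℝ) ^ (1 / (n : ℝ)) * (c * (q : ℝ) ^ (1 / (n : ℝ) - δ)) =
        2 * N * c * (q : ℝ) ^ (-δ) := by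
      rw [show (1 / (n : ℝ) - δ) = 1 / (n : ℝ) + (-δ) by ring, Real.rpow_add hq0]
      field_simp
    have e2 : (q : ℝ) ^ (-δ) ≤ Q ^ (-(δ / (2 * n))) := by
      have : Q ^ (-(δ / (2 * n))) = (Q ^ (1 / (2 * (n : ℝ)))) ^ (-δ) := by
        rw [← Real.rpow_mul hQ0.le]; congr 1; ring
      rw [this]
      exact Real.rpow_le_rpow_of_nonpos (by positivity) hcase (by linarith)
    have e3 : (q : ℝ) ^ (1 / (n : ℝ) - δ) ≤ Q ^ (1 / (n : ℝ) - δ / (2 * n)) := by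
      calc (q : ℝ) ^ (1 / (n : ℝ) - δ) ≤ Q ^ (1 / (n : ℝ) - δ) :=
            Real.rpow_le_rpow hq0.le hqQ (by linarith)
        _ ≤ _ := by
          apply Real.rpow_le_rpow_of_exponent_le hQ
          have : δ / (2 * n) ≤ δ := div_le_self hδ.le (by linarith)
          linarith
    have e4 : 2 * N * c * (q : ℝ) ^ (-δ) ≤ 2 * c * Q ^ (1 / (n : ℝ) - δ / (2 * n)) := by
      calc 2 * N * c * (q : ℝ) ^ (-δ) ≤ 2 * Q ^ (1 / (n : ℝ)) * c * Q ^ (-(δ / (2 * n))) := by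
            gcongr
        _ = 2 * c * (Q ^ (1 / (n : ℝ)) * Q ^ (-(δ / (2 * n)))) := by ring
        _ = _ := by rw [← Real.rpow_add hQ0]; rfl
    have e5 : c * (q : ℝ) ^ (1 / (n : ℝ) - δ) ≤ c * Q ^ (1 / (n : ℝ) - δ / (2 * n)) :=
      mul_le_mul_of_nonneg_left e3 hc
    rw [add_mul, e1, one_mul]
    nlinarith

lemma all_of_simple {n : ℕ} (hn : 1 ≤ n) (h : Simple n) : C All n := by
  obtain ⟨δ, c, hδ, hc, h⟩ := prim_bound hn h
  have hn0 : (0 : ℝ) < n := by exact_mod_cast hn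
  refine ⟨n * δ, by positivity, fun ε hε => ?_⟩
  obtain ⟨K, hK, hdiv⟩ := H353.divisor_bound_real ε hε
  refine ⟨K * c, ?_⟩
  intro Q hQ N _ hN M q hq hqQ χ h3 h1 _
  have hNe : NeZero q := ⟨by omega⟩
  have hQ1 : 1 ≤ Q := by linarith
  have hQ0 : 0 < Q := by linarith
  obtain ⟨g3, g1⟩ := primitive_cubic hq χ h3 h1
  have hf0 : χ.conductor ≠ 0 := χ.conductor_ne_zero
  have hfq : χ.conductor ≤ q := Nat.le_of_dvd (by omega) χ.conductor_dvd_level
  have hprim := χ.primitiveCharacter_isPrimitive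
  have hgood := good_of_primitive hf0 χ.primitiveCharacter g3 hprim
  have key := imprimitive hq χ N (c * Q ^ (1 / (n : ℝ) - δ))
    (fun M' N' hN' => h Q hQ1 N' (le_trans (by exact_mod_cast hN') hN) M' χ.conductor (by omega)
      (le_trans (by exact_mod_cast hfq) hqQ) χ.primitiveCharacter g3 g1 ⟨hgood, hprim⟩) M
  refine key.trans ?_
  have e1 : (q.divisors.card : ℝ) ≤ K * Q ^ ε := by
    refine (hdiv q (by omega)).trans ?_
    apply mul_le_mul_of_nonneg_left _ hK.le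
    exact Real.rpow_le_rpow (Nat.cast_nonneg _) hqQ hε.le
  have e2 : (1 - n * δ) / n + ε = ε + (1 / (n : ℝ) - δ) := by field_simp; ring
  rw [e2, Real.rpow_add hQ0]
  calc (q.divisors.card : ℝ) * (c * Q ^ (1 / (n : ℝ) - δ))
      ≤ (K * Q ^ ε) * (c * Q ^ (1 / (n : ℝ) - δ)) := by gcongr
    _ = _ := by ring

lemma C_mono {P P' : (q : ℕ) → DirichletCharacter ℂ q → Prop} (h : ∀ q χ, P' q χ → P q χ) {n : ℕ}
    (hC : C P n) : C P' n := by
  obtain ⟨δ, hδ, hC⟩ := hC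
  refine ⟨δ, hδ, fun ε hε => ?_⟩
  obtain ⟨c, hc⟩ := hC ε hε
  exact ⟨c, fun Q hQ N hN hNQ M q hq hqQ χ h3 h1 hP => hc Q hQ N hN hNQ M q hq hqQ χ h3 h1 (h q χ hP)⟩

lemma simple_of_prim {n : ℕ} (hn : 1 ≤ n) (h : C Prim n) : Simple n := by
  obtain ⟨δ, hδ, h⟩ := h
  have hn0 : (0 : ℝ) < n := by exact_mod_cast hn
  obtain ⟨c, hc⟩ := h (δ / (2 * n)) (by positivity)
  refine ⟨δ / (2 * n), max c 0, by positivity, ?_⟩
  intro q hq χ h3 h1 hP N hN M
  have hq3 : (3 : ℝ) ≤ q := by exact_mod_cast good_three_le hq hP.1 χ h1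
  rcases Nat.eq_zero_or_pos N with h0 | h0
  · subst h0
    rw [S_zero, norm_zero]; positivity
  · have e1 := hc q hq3 N h0 hN M q hq le_rfl χ h3 h1 hP
    refine e1.trans ?_
    have e2 : (1 - δ) / n + δ / (2 * n) = 1 / (n : ℝ) - δ / (2 * n) := by field_simp; ring
    rw [e2]
    exact mul_le_mul_of_nonneg_right (le_max_left _ _) (by positivity)

lemma cubefree_of_good {q : ℕ} (h : Good q) : ∀ p : ℕ, p.Prime → ¬ p ^ 3 ∣ q := by
  intro p hp hd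
  rcases h p hp ((dvd_pow_self p (by norm_num)).trans hd) with h | h
  · exact h.2 ((pow_dvd_pow p (by norm_num)).trans hd)
  · rw [h.1] at hd
    exact h.2.2 hd

lemma simple_mono {n m : ℕ} (hm : 1 ≤ m) (hmn : m ≤ n) (h : Simple n) : Simple m := by
  have hn : 1 ≤ n := hm.trans hmn
  obtain ⟨δ, c, hδ, hδn, hc, h⟩ := simple_norm hn h
  have hn0 : (0 : ℝ) < n := by exact_mod_cast hn
  have hm0 : (0 : ℝ) < m := by exact_mod_cast hm
  refine ⟨δ, 3 * c, hδ, ?_⟩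
  intro q hq χ h3 h1 hP N hN M
  have hq1 : (1 : ℝ) ≤ q := by exact_mod_cast hq
  have hq0 : (0 : ℝ) < q := by linarith
  refine (h q hq χ h3 h1 hP M N).trans ?_
  have hnm : 1 / (n : ℝ) ≤ 1 / (m : ℝ) := by
    apply one_div_le_one_div_of_le hm0; exact_mod_cast hmn
  have e1 : 2 * N / (q : ℝ) ^ (1 / (n : ℝ)) * (c * (q : ℝ) ^ (1 / (n : ℝ) - δ)) =
      2 * N * c * (q : ℝ) ^ (-δ) := by
    rw [show (1 / (n : ℝ) - δ) = 1 / (n : ℝ) + (-δ) by ring, Real.rpow_add hq0]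
    field_simp
  have e2 : 2 * N * c * (q : ℝ) ^ (-δ) ≤ 2 * c * (q : ℝ) ^ (1 / (m : ℝ) - δ) := by
    calc 2 * N * c * (q : ℝ) ^ (-δ) ≤ 2 * (q : ℝ) ^ (1 / (m : ℝ)) * c * (q : ℝ) ^ (-δ) := by gcongr
      _ = 2 * c * ((q : ℝ) ^ (1 / (m : ℝ)) * (q : ℝ) ^ (-δ)) := by ring
      _ = _ := by rw [← Real.rpow_add hq0]; rfl
  have e3 : c * (q : ℝ) ^ (1 / (n : ℝ) - δ) ≤ c * (q : ℝ) ^ (1 / (m : ℝ) - δ) := by
    apply mul_le_mul_of_nonneg_left _ hc
    exact Real.rpow_le_rpow_of_exponent_le hq1 (by linarith)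
  rw [add_mul, e1, one_mul]
  linarith

lemma long_of_simple (h : ∀ k : ℕ, ∃ n : ℕ, k ≤ n ∧ Simple n) : LongIntervals := by
  intro η hη
  obtain ⟨k, hk⟩ := exists_nat_ge (1 / η)
  obtain ⟨n, hkn, hS⟩ := h (k + 1)
  have hn : 1 ≤ n := by omega
  obtain ⟨δ, c, hδ, hδn, hc, h⟩ := simple_norm hn hS
  have hn0 : (0 : ℝ) < n := by exact_mod_cast hn
  have hnη : 1 / (n : ℝ) ≤ η := by
    rw [div_le_iff₀ hn0]
    rw [div_le_iff₀ hη] at hk
    have : (k : ℝ) ≤ n := by exact_mod_cast (by omega : k ≤ n)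
    nlinarith
  refine ⟨min δ (1 / 4), 3 * c + 8, lt_min hδ (by norm_num), ?_⟩
  intro q hq χ h3 h1 hP N hN M
  have hq1 : (1 : ℝ) ≤ q := by exact_mod_cast hq
  have hq0 : (0 : ℝ) < q := by linarith
  have hq3 := good_three_le hq hP.1 χ h1
  have hN1 : (1 : ℝ) ≤ N := (Real.one_le_rpow hq1 hη.le).trans hN
  have hN0 : (0 : ℝ) < N := by linarith
  rcases le_total (N : ℝ) q with hcase | hcase
  · refine (h q hq χ h3 h1 hP M N).trans ?_
    have hx : (q : ℝ) ^ (1 / (n : ℝ)) ≤ N :=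
      (Real.rpow_le_rpow_of_exponent_le hq1 hnη).trans hN
    have hx0 : 0 < (q : ℝ) ^ (1 / (n : ℝ)) := by positivity
    have e0 : 2 * N / (q : ℝ) ^ (1 / (n : ℝ)) + 1 ≤ 3 * N / (q : ℝ) ^ (1 / (n : ℝ)) := by
      have : 1 ≤ (N : ℝ) / (q : ℝ) ^ (1 / (n : ℝ)) := by rw [le_div_iff₀ hx0]; linarith
      have e : 3 * N / (q : ℝ) ^ (1 / (n : ℝ)) =
        2 * N / (q : ℝ) ^ (1 / (n : ℝ)) + (N : ℝ) / (q : ℝ) ^ (1 / (n : ℝ)) := by ring
      rw [e]; linarith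
    have e1 : 3 * N / (q : ℝ) ^ (1 / (n : ℝ)) * (c * (q : ℝ) ^ (1 / (n : ℝ) - δ)) =
        3 * c * (N * (q : ℝ) ^ (-δ)) := by
      rw [show (1 / (n : ℝ) - δ) = 1 / (n : ℝ) + (-δ) by ring, Real.rpow_add hq0]
      field_simp
    have e2 : (q : ℝ) ^ (-δ) ≤ (N : ℝ) ^ (-δ) := Real.rpow_le_rpow_of_nonpos hN0 hcase (by linarith)
    have e3 : (N : ℝ) * (N : ℝ) ^ (-δ) = (N : ℝ) ^ (1 - δ) := by
      rw [sub_eq_add_neg, Real.rpow_add hN0, Real.rpow_one]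
    have e4 : (N : ℝ) ^ (1 - δ) ≤ (N : ℝ) ^ (1 - min δ (1 / 4)) := by
      apply Real.rpow_le_rpow_of_exponent_le hN1
      have := min_le_left δ (1 / 4); linarith
    have e5 : 0 ≤ (N : ℝ) ^ (1 - min δ (1 / 4)) := by positivity
    calc (2 * N / (q : ℝ) ^ (1 / (n : ℝ)) + 1) * (c * (q : ℝ) ^ (1 / (n : ℝ) - δ))
        ≤ 3 * N / (q : ℝ) ^ (1 / (n : ℝ)) * (c * (q : ℝ) ^ (1 / (n : ℝ) - δ)) := by gcongr
      _ = 3 * c * (N * (q : ℝ) ^ (-δ)) := e1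
      _ ≤ 3 * c * (N * (N : ℝ) ^ (-δ)) := by gcongr
      _ = 3 * c * (N : ℝ) ^ (1 - δ) := by rw [e3]
      _ ≤ 3 * c * (N : ℝ) ^ (1 - min δ (1 / 4)) := by gcongr
      _ ≤ _ := by nlinarith
  · have e1 := pv' (by omega : 2 ≤ q) χ hP.2 M N
    have e2 : (q : ℝ) ^ (3 / 4 : ℝ) ≤ (N : ℝ) ^ (3 / 4 : ℝ) :=
      Real.rpow_le_rpow hq0.le hcase (by norm_num)
    have e3 : (N : ℝ) ^ (3 / 4 : ℝ) ≤ (N : ℝ) ^ (1 - min δ (1 / 4)) := by
      apply Real.rpow_le_rpow_of_exponent_le hN1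
      have := min_le_right δ (1 / 4); linarith
    have e5 : 0 ≤ c * (N : ℝ) ^ (1 - min δ (1 / 4)) := by positivity
    linarith

lemma simple_of_long (h : LongIntervals) {n : ℕ} (hn : 1 ≤ n) : Simple n := by
  have hn0 : (0 : ℝ) < n := by exact_mod_cast hn
  obtain ⟨δ, c, hδ, h⟩ := h (1 / (2 * n)) (by positivity)
  refine ⟨min (δ / n) (1 / (2 * n)), max c 0 + 1, lt_min (by positivity) (by positivity), ?_⟩
  intro q hq χ h3 h1 hP N hN M
  have hq1 : (1 : ℝ) ≤ q := by exact_mod_cast hq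
  have hq0 : (0 : ℝ) < q := by linarith
  have hN0 : (0 : ℝ) ≤ N := Nat.cast_nonneg N
  have hpos : 0 ≤ (q : ℝ) ^ (1 / (n : ℝ) - min (δ / n) (1 / (2 * n))) := by positivity
  have hhalf : 1 / (n : ℝ) = 1 / (2 * n) + 1 / (2 * n) := by field_simp; ring
  rcases le_total ((q : ℝ) ^ (1 / (2 * (n : ℝ)))) N with hcase | hcase
  · have e1 := h q hq χ h3 h1 hP N hcase M
    have hN1 : (1 : ℝ) ≤ N := (Real.one_le_rpow hq1 (by positivity)).trans hcase
    have e2 : c * (N : ℝ) ^ (1 - δ) ≤ max c 0 * (N : ℝ) ^ (1 - min δ 1) := by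
      have f1 : (N : ℝ) ^ (1 - δ) ≤ (N : ℝ) ^ (1 - min δ 1) := by
        apply Real.rpow_le_rpow_of_exponent_le hN1
        have := min_le_left δ 1; linarith
      have f2 : 0 ≤ (N : ℝ) ^ (1 - δ) := by positivity
      calc c * (N : ℝ) ^ (1 - δ) ≤ max c 0 * (N : ℝ) ^ (1 - δ) :=
            mul_le_mul_of_nonneg_right (le_max_left _ _) f2
        _ ≤ _ := mul_le_mul_of_nonneg_left f1 (le_max_right _ _)
    have e3 : (N : ℝ) ^ (1 - min δ 1) ≤ (q : ℝ) ^ (1 / (n : ℝ) - min (δ / n) (1 / (2 * n))) := by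
      have hm : 0 ≤ 1 - min δ 1 := by have := min_le_right δ 1; linarith
      calc (N : ℝ) ^ (1 - min δ 1) ≤ ((q : ℝ) ^ (1 / (n : ℝ))) ^ (1 - min δ 1) :=
            Real.rpow_le_rpow hN0 hN hm
        _ = (q : ℝ) ^ (1 / (n : ℝ) * (1 - min δ 1)) := by rw [← Real.rpow_mul hq0.le]
        _ ≤ _ := by
          apply Real.rpow_le_rpow_of_exponent_le hq1
          have g1 : min (δ / n) (1 / (2 * (n : ℝ))) ≤ min δ 1 / n := by
            rcases le_total δ 1 with hd | hd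
            · rw [min_eq_left hd]; exact min_le_left _ _
            · rw [min_eq_right hd]
              refine (min_le_right _ _).trans ?_
              apply one_div_le_one_div_of_le hn0; linarith
          have g2 : 1 / (n : ℝ) * (1 - min δ 1) = 1 / n - min δ 1 / n := by ring
          rw [g2]; linarith
    calc ‖S χ M N‖ ≤ max c 0 * (N : ℝ) ^ (1 - min δ 1) := e1.trans e2
      _ ≤ max c 0 * (q : ℝ) ^ (1 / (n : ℝ) - min (δ / n) (1 / (2 * n))) :=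
          mul_le_mul_of_nonneg_left e3 (le_max_right _ _)
      _ ≤ _ := by nlinarith
  · have e1 := norm_S_le_N χ M N
    have e2 : (q : ℝ) ^ (1 / (2 * (n : ℝ))) ≤ (q : ℝ) ^ (1 / (n : ℝ) - min (δ / n) (1 / (2 * n))) := by
      apply Real.rpow_le_rpow_of_exponent_le hq1
      have := min_le_right (δ / n) (1 / (2 * (n : ℝ)))
      linarith
    have e3 : 0 ≤ max c 0 * (q : ℝ) ^ (1 / (n : ℝ) - min (δ / n) (1 / (2 * n))) := by positivity
    linarith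

/-- **Theorem.** Let `n ≥ 1`.

1. `C_n` holds for all moduli if and only if it holds for cubefree moduli, if and only if it holds
   for the primitive characters whose modulus is a product of distinct primes `p ≡ 1 (mod 3)` and
   possibly of the factor `9`, if and only if the `Simple` form without `Q` and `ε` holds.
2. `C_n` implies `C_m` for all `1 ≤ m ≤ n`.
3. Q1 (`C_n` for every `n ≥ 3`) holds if and only if `C_n` holds for infinitely many `n`, if and only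
   if for every `η > 0` there is a power saving `c N ^ (1 - δ)` for all primitive cubic characters
   modulo `q` and all intervals of length `N ≥ q ^ η`. -/
theorem result :
    (∀ n : ℕ, 1 ≤ n → (C All n ↔ C Cubefree n) ∧ (C All n ↔ C Prim n) ∧ (C All n ↔ Simple n)) ∧
    (∀ m n : ℕ, 1 ≤ m → m ≤ n → C All n → C All m) ∧
    ((∀ n : ℕ, 3 ≤ n → C All n) ↔ ∀ k : ℕ, ∃ n : ℕ, k ≤ n ∧ C All n) ∧
    ((∀ n : ℕ, 3 ≤ n → C All n) ↔ LongIntervals) := by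
  have hAP : ∀ n, C All n → C Prim n := fun n h => C_mono (fun _ _ _ => trivial) h
  have hAC : ∀ n, C All n → C Cubefree n := fun n h => C_mono (fun _ _ _ => trivial) h
  have hCP : ∀ n, C Cubefree n → C Prim n :=
    fun n h => C_mono (fun _ _ hP => cubefree_of_good hP.1) h
  have hS : ∀ n : ℕ, 1 ≤ n → (C All n ↔ Simple n) := fun n hn =>
    ⟨fun h => simple_of_prim hn (hAP n h), all_of_simple hn⟩
  have hmono : ∀ m n : ℕ, 1 ≤ m → m ≤ n → C All n → C All m := fun m n hm hmn h =>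
    (hS m hm).mpr (simple_mono hm hmn ((hS n (hm.trans hmn)).mp h))
  have hlong : (∀ k : ℕ, ∃ n : ℕ, k ≤ n ∧ C All n) → LongIntervals := by
    intro h
    apply long_of_simple
    intro k
    obtain ⟨n, hkn, hn⟩ := h (k + 1)
    exact ⟨n, by omega, (hS n (by omega)).mp hn⟩
  refine ⟨fun n hn => ⟨⟨hAC n, fun h => (hS n hn).mpr (simple_of_prim hn (hCP n h))⟩,
    ⟨hAP n, fun h => (hS n hn).mpr (simple_of_prim hn h)⟩, hS n hn⟩, hmono, ⟨?_, ?_⟩, ⟨?_, ?_⟩⟩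
  · intro h k
    exact ⟨max k 3, le_max_left _ _, h _ (le_max_right _ _)⟩
  · intro h n hn
    obtain ⟨n', hn', h'⟩ := h n
    exact hmono n n' (by omega) hn' h'
  · intro h
    exact hlong (fun k => ⟨max k 3, le_max_left _ _, h _ (le_max_right _ _)⟩)
  · intro h n hn
    exact (hS n (by omega)).mpr (simple_of_long h (by omega))

end Pool.Agent.Results.MP_081200_nt.ReductionToCubefree
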