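import Pool.Agent.R524.Cubic.Sums

set_option autoImplicit false

/-!
# Short sums of cubic characters: moduli with a small radical

Unconditional cases of `C_n`: characters of small conductor, moduli with a small radical, in
particular `k`-full moduli for `n < 2k`.
-/

namespace Pool.Agent.Results.MP_081200_nt.SmallRadical

open Pool.Agent.R524.Cubic Finset

/-- `C_n` restricted to the moduli `q` with `P q`: there is `δ > 0` such that for every `ε > 0` there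
is `c` with `|S_χ(M,N)| ≤ c Q ^ ((1 - δ) / n + ε)` for all real `Q ≥ 3`, all integers
`1 ≤ N ≤ Q ^ (1/n)`, all integers `M` and every non-principal cubic character `χ` of modulus `q ≤ Q`
with `P q`. Here `S χ M N` is the sum of `χ(a)` over the integers `a` with `M < a ≤ M + N`. -/
def C (P : ℕ → Prop) (n : ℕ) : Prop :=
  ∃ δ : ℝ, 0 < δ ∧ ∀ ε : ℝ, 0 < ε → ∃ c : ℝ, ∀ Q : ℝ, 3 ≤ Q → ∀ N : ℕ, 1 ≤ N →
    (N : ℝ) ≤ Q ^ (1 / (n : ℝ)) → ∀ M : ℤ, ∀ q : ℕ, 1 ≤ q → (q : ℝ) ≤ Q → P q →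
      ∀ χ : DirichletCharacter ℂ q, χ ^ 3 = 1 → χ ≠ 1 →
        ‖S χ M N‖ ≤ c * Q ^ ((1 - δ) / n + ε)

/-- the product of the primes that divide `q` -/
def rad (q : ℕ) : ℕ := ∏ p ∈ q.primeFactors, p

/-- every prime divisor of `q` divides it at least `k` times -/
def Full (k q : ℕ) : Prop := ∀ p : ℕ, p.Prime → p ∣ q → p ^ k ∣ q

lemma dvd_rad {p q : ℕ} (hq : 1 ≤ q) (hp : p.Prime) (h : p ∣ q) : p ∣ rad q :=
  Finset.dvd_prod_of_mem _ (Nat.mem_primeFactors.mpr ⟨hp, h, by omega⟩)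

lemma rad_pos (q : ℕ) : 0 < rad q := by
  apply Finset.prod_pos
  intro p hp
  exact (Nat.prime_of_mem_primeFactors hp).pos

lemma good_le_rad {f q : ℕ} (hq : 1 ≤ q) (hf : Good f) (hfq : f ∣ q) : f ≤ 3 * rad q := by
  apply Nat.le_of_dvd (by have := rad_pos q; omega)
  rw [Nat.dvd_iff_prime_pow_dvd_dvd]
  intro p k hp hk
  rcases Nat.eq_zero_or_pos k with h0 | h0
  · subst h0; simp
  · have hpf : p ∣ f := (dvd_pow_self p (by omega)).trans hk
    have hpr : p ∣ rad q := dvd_rad hq hp (hpf.trans hfq)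
    rcases Nat.lt_or_ge k 2 with h1 | h1
    · have : k = 1 := by omega
      subst this
      rw [pow_one]
      exact Dvd.dvd.mul_left hpr 3
    · rcases hf p hp hpf with h | h
      · exact absurd ((pow_dvd_pow p h1).trans hk) h.2
      · obtain ⟨rfl, _, h3⟩ := h
        rcases Nat.lt_or_ge k 3 with h2 | h2
        · have : k = 2 := by omega
          subst this
          rw [pow_two]
          exact mul_dvd_mul_left 3 hpr
        · exact absurd ((pow_dvd_pow 3 h2).trans hk) h3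

lemma rad_pow_le {k q : ℕ} (hq : 1 ≤ q) (h : Full k q) : rad q ^ k ≤ q := by
  conv_rhs => rw [← Nat.prod_factorization_pow_eq_self (by omega : q ≠ 0)]
  unfold rad
  rw [← Finset.prod_pow, Finsupp.prod, Nat.support_factorization]
  apply Finset.prod_le_prod'
  intro p hp
  rw [Nat.mem_primeFactors] at hp
  apply Nat.pow_le_pow_right hp.1.pos
  exact (hp.1.pow_dvd_iff_le_factorization (by omega)).mp (h p hp.1 hp.2.1)

/-- the bound by the conductor -/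
lemma core (ε : ℝ) (hε : 0 < ε) : ∃ K : ℝ, 0 < K ∧ ∀ q : ℕ, 1 ≤ q → ∀ χ : DirichletCharacter ℂ q,
    χ ≠ 1 → ∀ M : ℤ, ∀ N : ℕ, ‖S χ M N‖ ≤ K * (q : ℝ) ^ ε * (χ.conductor : ℝ) ^ (1 / 2 + ε) := by
  obtain ⟨K, hK, hdiv⟩ := H353.divisor_bound_real ε hε
  refine ⟨K * (2 * (1 + 1 / ε)), by positivity, ?_⟩
  intro q hq χ h1 M N
  have : NeZero q := ⟨by omega⟩
  have hf0 : χ.conductor ≠ 0 := χ.conductor_ne_zero
  have hf1 : χ.conductor ≠ 1 := by
    intro h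
    exact h1 ((DirichletCharacter.eq_one_iff_conductor_eq_one (χ := χ)).mpr h)
  have hf2 : 2 ≤ χ.conductor := by omega
  have hfr : (1 : ℝ) ≤ (χ.conductor : ℝ) := by exact_mod_cast (by omega : 1 ≤ χ.conductor)
  have hfr0 : (0 : ℝ) < (χ.conductor : ℝ) := by linarith
  have hlog : 1 + Real.log (χ.conductor : ℝ) ≤ (1 + 1 / ε) * (χ.conductor : ℝ) ^ ε := by
    have g1 : Real.log (χ.conductor : ℝ) ≤ (χ.conductor : ℝ) ^ ε / ε :=
      Real.log_le_rpow_div hfr0.le hε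
    have g2 : (1 : ℝ) ≤ (χ.conductor : ℝ) ^ ε := Real.one_le_rpow hfr hε.le
    have g3 : (1 + 1 / ε) * (χ.conductor : ℝ) ^ ε =
      (χ.conductor : ℝ) ^ ε + (χ.conductor : ℝ) ^ ε / ε := by ring
    linarith
  have key := imprimitive hq χ N (2 * (1 + 1 / ε) * (χ.conductor : ℝ) ^ (1 / 2 + ε))
    (fun M' N' _ => by
      refine (pv hf2 χ.primitiveCharacter χ.primitiveCharacter_isPrimitive M' N').trans ?_
      rw [Real.rpow_add hfr0, ← Real.sqrt_eq_rpow]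
      have h0 := Real.sqrt_nonneg (χ.conductor : ℝ)
      calc 2 * (√(χ.conductor : ℝ) * (1 + Real.log (χ.conductor : ℝ)))
          ≤ 2 * (√(χ.conductor : ℝ) * ((1 + 1 / ε) * (χ.conductor : ℝ) ^ ε)) := by gcongr
        _ = _ := by ring) M
  refine key.trans ?_
  calc (q.divisors.card : ℝ) * (2 * (1 + 1 / ε) * (χ.conductor : ℝ) ^ (1 / 2 + ε))
      ≤ (K * (q : ℝ) ^ ε) * (2 * (1 + 1 / ε) * (χ.conductor : ℝ) ^ (1 / 2 + ε)) := by
        apply mul_le_mul_of_nonneg_right (hdiv q (by omega)) (by positivity)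
    _ = _ := by ring

/-- the exponent -/
lemma expo {x η : ℝ} (hη : 0 < η) (hx0 : 0 ≤ x) (hx1 : x ≤ 2) :
    η / 12 + x * (1 / 2 + η / 12) ≤ x / 2 + η / 4 := by
  nlinarith

/-- **Theorem.** Let `n ≥ 1` and `η > 0`.

1. There are `δ > 0` and `c` such that for all real `Q ≥ 3`, all non-principal characters of modulus
   `q ≤ Q` (cubic or not) and conductor at most `Q ^ (2/n - η)`, and all intervals of whatever
   position and length, `|S_χ(M,N)| ≤ c Q ^ (1/n - δ)`.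
2. `C_n` holds for the moduli `q` with `rad(q) ≤ q ^ (2/n - η)`.
3. If `n < 2 k` then `C_n` holds for the `k`-full moduli. -/
theorem result :
    (∀ n : ℕ, 1 ≤ n → ∀ η : ℝ, 0 < η → ∃ δ c : ℝ, 0 < δ ∧ ∀ Q : ℝ, 3 ≤ Q → ∀ q : ℕ, 1 ≤ q →
      (q : ℝ) ≤ Q → ∀ χ : DirichletCharacter ℂ q, χ ≠ 1 →
        (χ.conductor : ℝ) ≤ Q ^ (2 / (n : ℝ) - η) → ∀ (M : ℤ) (N : ℕ),
          ‖S χ M N‖ ≤ c * Q ^ (1 / (n : ℝ) - δ)) ∧
    (∀ n : ℕ, 1 ≤ n → ∀ η : ℝ, 0 < η →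
      C (fun q => (rad q : ℝ) ≤ (q : ℝ) ^ (2 / (n : ℝ) - η)) n) ∧
    (∀ n k : ℕ, 1 ≤ n → n < 2 * k → C (Full k) n) := by
  have hx2 : ∀ n : ℕ, 1 ≤ n → ∀ η : ℝ, 0 < η → 2 / (n : ℝ) - η ≤ 2 := by
    intro n hn η hη
    have hn1 : (1 : ℝ) ≤ n := by exact_mod_cast hn
    have : 2 / (n : ℝ) ≤ 2 := div_le_self (by norm_num) hn1
    linarith
  have part1 : ∀ n : ℕ, 1 ≤ n → ∀ η : ℝ, 0 < η → ∃ c : ℝ, 0 < c ∧ ∀ Q : ℝ, 3 ≤ Q →
      ∀ q : ℕ, 1 ≤ q → (q : ℝ) ≤ Q → ∀ χ : DirichletCharacter ℂ q, χ ≠ 1 →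
        (χ.conductor : ℝ) ≤ 3 * Q ^ (2 / (n : ℝ) - η) → 0 ≤ 2 / (n : ℝ) - η → ∀ (M : ℤ) (N : ℕ),
          ‖S χ M N‖ ≤ c * Q ^ (1 / (n : ℝ) - η / 4) := by
    intro n hn η hη
    obtain ⟨K, hK, hcore⟩ := core (η / 12) (by positivity)
    refine ⟨K * 3 ^ (1 / 2 + η / 12), by positivity, ?_⟩
    intro Q hQ q hq hqQ χ h1 hf hx0 M N
    have hQ1 : 1 ≤ Q := by linarith
    have hQ0 : 0 < Q := by linarith
    refine (hcore q hq χ h1 M N).trans ?_
    have e1 : (q : ℝ) ^ (η / 12) ≤ Q ^ (η / 12) :=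
      Real.rpow_le_rpow (Nat.cast_nonneg _) hqQ (by positivity)
    have e2 : (χ.conductor : ℝ) ^ (1 / 2 + η / 12) ≤
        3 ^ (1 / 2 + η / 12) * Q ^ ((2 / (n : ℝ) - η) * (1 / 2 + η / 12)) := by
      refine (Real.rpow_le_rpow (Nat.cast_nonneg _) hf (by positivity)).trans ?_
      rw [Real.mul_rpow (by norm_num) (by positivity), ← Real.rpow_mul hQ0.le]
    have e3 : Q ^ (η / 12) * Q ^ ((2 / (n : ℝ) - η) * (1 / 2 + η / 12)) ≤
        Q ^ (1 / (n : ℝ) - η / 4) := by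
      rw [← Real.rpow_add hQ0]
      apply Real.rpow_le_rpow_of_exponent_le hQ1
      have := expo hη hx0 (hx2 n hn η hη)
      have h2 : (2 / (n : ℝ) - η) / 2 + η / 4 = 1 / (n : ℝ) - η / 4 := by ring
      linarith
    calc K * (q : ℝ) ^ (η / 12) * (χ.conductor : ℝ) ^ (1 / 2 + η / 12)
        ≤ K * Q ^ (η / 12) *
          (3 ^ (1 / 2 + η / 12) * Q ^ ((2 / (n : ℝ) - η) * (1 / 2 + η / 12))) := by gcongr
      _ = K * 3 ^ (1 / 2 + η / 12) *
          (Q ^ (η / 12) * Q ^ ((2 / (n : ℝ) - η) * (1 / 2 + η / 12))) := by ring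
      _ ≤ _ := by
        apply mul_le_mul_of_nonneg_left e3 (by positivity)
  have part2 : ∀ n : ℕ, 1 ≤ n → ∀ η : ℝ, 0 < η →
      C (fun q => (rad q : ℝ) ≤ (q : ℝ) ^ (2 / (n : ℝ) - η)) n := by
    intro n hn η hη
    have hn0 : (0 : ℝ) < n := by exact_mod_cast hn
    obtain ⟨c, hc, h⟩ := part1 n hn η hη
    refine ⟨n * (η / 4), by positivity, fun ε hε => ⟨c, ?_⟩⟩
    intro Q hQ N _ _ M q hq hqQ hrad χ h3 h1
    have hNe : NeZero q := ⟨by omega⟩
    have hQ1 : 1 ≤ Q := by linarith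
    obtain ⟨g3, g1⟩ := primitive_cubic hq χ h3 h1
    have hgood := good_of_primitive χ.conductor_ne_zero χ.primitiveCharacter g3
      χ.primitiveCharacter_isPrimitive
    have hfle := good_le_rad hq hgood χ.conductor_dvd_level
    have hq2 : 2 ≤ q := by
      by_contra hlt
      have : q = 1 := by omega
      subst this
      exact h1 (DirichletCharacter.level_one χ)
    have hq1 : (1 : ℝ) < q := by exact_mod_cast (by omega : 1 < q)
    have hx0 : 0 ≤ 2 / (n : ℝ) - η := by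
      by_contra hneg
      have h4 : (q : ℝ) ^ (2 / (n : ℝ) - η) < 1 := Real.rpow_lt_one_of_one_lt_of_neg hq1 (by linarith)
      have h5 : (1 : ℝ) ≤ rad q := by exact_mod_cast rad_pos q
      linarith
    have hf : (χ.conductor : ℝ) ≤ 3 * Q ^ (2 / (n : ℝ) - η) := by
      have h4 : (χ.conductor : ℝ) ≤ 3 * (rad q : ℝ) := by exact_mod_cast hfle
      have h5 : (q : ℝ) ^ (2 / (n : ℝ) - η) ≤ Q ^ (2 / (n : ℝ) - η) :=
        Real.rpow_le_rpow (by linarith) hqQ hx0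
      linarith
    refine (h Q hQ q hq hqQ χ h1 hf hx0 M N).trans ?_
    apply mul_le_mul_of_nonneg_left _ hc.le
    apply Real.rpow_le_rpow_of_exponent_le hQ1
    have : (1 - n * (η / 4)) / n + ε = 1 / (n : ℝ) - η / 4 + ε := by field_simp
    linarith
  refine ⟨?_, part2, ?_⟩
  · intro n hn η hη
    obtain ⟨c, hc, h⟩ := part1 n hn η hη
    refine ⟨η / 4, c, by positivity, ?_⟩
    intro Q hQ q hq hqQ χ h1 hf M N
    have hNe : NeZero q := ⟨by omega⟩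
    have hQ1 : 1 < Q := by linarith
    have hx0 : 0 ≤ 2 / (n : ℝ) - η := by
      by_contra hneg
      have h4 : Q ^ (2 / (n : ℝ) - η) < 1 := Real.rpow_lt_one_of_one_lt_of_neg hQ1 (by linarith)
      have h5 : (1 : ℝ) ≤ χ.conductor := by
        exact_mod_cast Nat.one_le_iff_ne_zero.mpr χ.conductor_ne_zero
      linarith
    refine h Q hQ q hq hqQ χ h1 (hf.trans ?_) hx0 M N
    have : 0 ≤ Q ^ (2 / (n : ℝ) - η) := by positivity
    linarith
  · intro n k hn hnk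
    have hn0 : (0 : ℝ) < n := by exact_mod_cast hn
    have hk : 1 ≤ k := by omega
    have hk0 : (0 : ℝ) < k := by exact_mod_cast hk
    have hη : 0 < 2 / (n : ℝ) - 1 / k := by
      rw [sub_pos, div_lt_div_iff₀ hk0 hn0]
      exact_mod_cast (by omega : 1 * n < 2 * k)
    obtain ⟨δ, hδ, h⟩ := part2 n hn _ hη
    refine ⟨δ, hδ, fun ε hε => ?_⟩
    obtain ⟨c, hc⟩ := h ε hε
    refine ⟨c, fun Q hQ N hN hNQ M q hq hqQ hfull χ h3 h1 =>
      hc Q hQ N hN hNQ M q hq hqQ ?_ χ h3 h1⟩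
    have h2 : 2 / (n : ℝ) - (2 / (n : ℝ) - 1 / k) = 1 / k := by ring
    show (rad q : ℝ) ≤ (q : ℝ) ^ (2 / (n : ℝ) - (2 / (n : ℝ) - 1 / k))
    rw [h2]
    have h4 : ((rad q : ℝ)) ^ k ≤ q := by exact_mod_cast rad_pow_le hq hfull
    have h5 : (rad q : ℝ) = ((rad q : ℝ) ^ k) ^ (1 / (k : ℝ)) := by
      rw [← Real.rpow_natCast, ← Real.rpow_mul (Nat.cast_nonneg _)]
      rw [mul_one_div_cancel (by positivity), Real.rpow_one]
    rw [h5]
    exact Real.rpow_le_rpow (by positivity) h4 (by positivity)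

end Pool.Agent.Results.MP_081200_nt.SmallRadical
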